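import Pool.Agent.H24.FD.P4
import Pool.Agent.H50.FD.PIM
import Pool.Agent.H63.FD.EQB

/-!
# MP_1f2761, `k = 2`: row BSW of board `fdp` (base 2 levels of a window)
-/

set_option autoImplicit false

open Finset Pool.K2 Pool.FD

namespace Pool.Agent.H24.FD.H88

open Pool.Agent.H24.FD Pool.Agent.H24.FD.Eqb63 Pool.Agent.H24.FD.PimAux

/-- all truncations of `n` are at most those of `a` -/
def Rr (u n a : ℕ) : Prop := ∀ r ≤ u, n % 2 ^ r ≤ a % 2 ^ r

theorem mod_low {l r n m : ℕ} (h : r ≤ l) : (2 ^ l * n + m) % 2 ^ r = m % 2 ^ r := by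
  have h1 : 2 ^ l = 2 ^ r * 2 ^ (l - r) := by
    rw [← pow_add]
    congr 1
    omega
  rw [h1, mul_assoc, Nat.mul_add_mod]

theorem mod_high {l r n m : ℕ} (h : l ≤ r) (hm : m < 2 ^ l) :
    (2 ^ l * n + m) % 2 ^ r = 2 ^ l * (n % 2 ^ (r - l)) + m := by
  have h1 : 2 ^ r = 2 ^ l * 2 ^ (r - l) := by
    rw [← pow_add]
    congr 1
    omega
  have h2 := Nat.div_add_mod n (2 ^ (r - l))
  have h3 : n % 2 ^ (r - l) < 2 ^ (r - l) := Nat.mod_lt _ (by positivity)
  have h4 : 2 ^ l * n + m = 2 ^ r * (n / 2 ^ (r - l)) + (2 ^ l * (n % 2 ^ (r - l)) + m) := by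
    rw [h1]
    calc 2 ^ l * n + m = 2 ^ l * (2 ^ (r - l) * (n / 2 ^ (r - l)) + n % 2 ^ (r - l)) + m := by
          rw [h2]
      _ = _ := by ring
  rw [h4, Nat.mul_add_mod]
  refine Nat.mod_eq_of_lt ?_
  rw [h1]
  have h5 : n % 2 ^ (r - l) + 1 ≤ 2 ^ (r - l) := h3
  calc 2 ^ l * (n % 2 ^ (r - l)) + m < 2 ^ l * (n % 2 ^ (r - l)) + 2 ^ l := by omega
    _ = 2 ^ l * (n % 2 ^ (r - l) + 1) := by ring
    _ ≤ 2 ^ l * 2 ^ (r - l) := Nat.mul_le_mul_left _ h5

theorem rr_comp {l u m m' n n' : ℕ} (h : Rr l m m') (hm : m < 2 ^ l) (hm' : m' < 2 ^ l)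
    (h' : Rr u n n') : Rr (l + u) (2 ^ l * n + m) (2 ^ l * n' + m') := by
  intro r hr
  rcases le_total r l with hl | hl
  · rw [mod_low hl, mod_low hl]
    exact h r hl
  · rw [mod_high hl hm, mod_high hl hm']
    have h1 := h l le_rfl
    rw [Nat.mod_eq_of_lt hm, Nat.mod_eq_of_lt hm'] at h1
    have h2 := h' (r - l) (by omega)
    have h3 := Nat.mul_le_mul_left (2 ^ l) h2
    omega

theorem vN_succ {l : ℕ} (s : Fin (l + 1) → Fin 3) :
    vN s = 2 ^ 1 * vN (fun i : Fin l => s i.succ) + (if s 0 = 2 then 1 else 0) := by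
  unfold vN
  rw [Fin.sum_univ_succ, mul_sum]
  simp only [Fin.val_zero, pow_zero, one_mul, Fin.val_succ]
  rw [add_comm]
  congr 1
  refine sum_congr rfl fun i _ => ?_
  rw [pow_succ]
  ring

theorem vA_succ {l : ℕ} (s : Fin (l + 1) → Fin 3) :
    vA s = 2 ^ 1 * vA (fun i : Fin l => s i.succ) + (if s 0 = 0 then 0 else 1) := by
  unfold vA
  rw [Fin.sum_univ_succ, mul_sum]
  simp only [Fin.val_zero, pow_zero, one_mul, Fin.val_succ]
  rw [add_comm]
  congr 1
  refine sum_congr rfl fun i _ => ?_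
  rw [pow_succ]
  ring

theorem vA_lt : ∀ {l : ℕ} (s : Fin l → Fin 3), vA s < 2 ^ l := by
  intro l
  induction l with
  | zero => intro s; simp [vA]
  | succ l ih =>
    intro s
    rw [vA_succ, pow_succ]
    have := ih fun i => s i.succ
    split_ifs <;> omega

theorem vN_lt' : ∀ {l : ℕ} (s : Fin l → Fin 3), vN s < 2 ^ l := by
  intro l
  induction l with
  | zero => intro s; simp [vN]
  | succ l ih =>
    intro s
    rw [vN_succ, pow_succ]
    have := ih fun i => s i.succ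
    split_ifs <;> omega

theorem rr_one (b c : ℕ) (hbc : b ≤ c) (hc : c < 2) : Rr 1 b c := by
  intro r hr
  interval_cases r
  · simp [Nat.mod_one]
  · rw [pow_one, Nat.mod_eq_of_lt hc, Nat.mod_eq_of_lt (by omega)]
    exact hbc

theorem rr_v : ∀ {l : ℕ} (s : Fin l → Fin 3), Rr l (vN s) (vA s) := by
  intro l
  induction l with
  | zero =>
    intro s r hr
    have : r = 0 := by omega
    subst this
    simp [Nat.mod_one]
  | succ l ih =>
    intro s
    rw [vN_succ, vA_succ]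
    have hb : (if s 0 = 2 then 1 else 0) ≤ (if s 0 = 0 then 0 else 1) := by
      by_cases h : s 0 = 2
      · rw [if_pos h, if_neg (by rw [h]; decide)]
      · rw [if_neg h]
        exact Nat.zero_le _
    have h1 := rr_comp (rr_one _ _ hb (by split_ifs <;> omega))
      (by split_ifs <;> omega) (by split_ifs <;> omega) (ih fun i => s i.succ)
    intro r hr
    exact h1 r (by omega)

theorem VN_succ {l k : ℕ} (S : Fin (k + 1) → Fin l → Fin 3) :
    VN S = 2 ^ l * VN (fun i : Fin k => S i.succ) + vN (S 0) := by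
  unfold VN
  rw [Fin.sum_univ_succ, mul_sum]
  simp only [Fin.val_zero, pow_zero, one_mul, Fin.val_succ]
  rw [add_comm]
  congr 1
  refine sum_congr rfl fun i _ => ?_
  rw [pow_succ]
  ring

theorem VA_succ {l k : ℕ} (S : Fin (k + 1) → Fin l → Fin 3) :
    VA S = 2 ^ l * VA (fun i : Fin k => S i.succ) + vA (S 0) := by
  unfold VA
  rw [Fin.sum_univ_succ, mul_sum]
  simp only [Fin.val_zero, pow_zero, one_mul, Fin.val_succ]
  rw [add_comm]
  congr 1
  refine sum_congr rfl fun i _ => ?_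
  rw [pow_succ]
  ring

theorem VN_lt' {l : ℕ} : ∀ {k : ℕ} (S : Fin k → Fin l → Fin 3), VN S < 2 ^ (l * k) := by
  intro k
  induction k with
  | zero => intro S; simp [VN]
  | succ k ih =>
    intro S
    rw [VN_succ]
    have h1 := ih fun i => S i.succ
    have h2 := vN_lt' (S 0)
    have h3 : 2 ^ (l * (k + 1)) = 2 ^ l * 2 ^ (l * k) := by
      rw [← pow_add]
      congr 1
      ring
    rw [h3]
    have h4 : VN (fun i : Fin k => S i.succ) + 1 ≤ 2 ^ (l * k) := h1
    have h5 := Nat.mul_le_mul_left (2 ^ l) h4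
    rw [mul_add, mul_one] at h5
    omega

theorem VA_lt' {l : ℕ} : ∀ {k : ℕ} (S : Fin k → Fin l → Fin 3), VA S < 2 ^ (l * k) := by
  intro k
  induction k with
  | zero => intro S; simp [VA]
  | succ k ih =>
    intro S
    rw [VA_succ]
    have h1 := ih fun i => S i.succ
    have h2 := vA_lt (S 0)
    have h3 : 2 ^ (l * (k + 1)) = 2 ^ l * 2 ^ (l * k) := by
      rw [← pow_add]
      congr 1
      ring
    rw [h3]
    have h4 : VA (fun i : Fin k => S i.succ) + 1 ≤ 2 ^ (l * k) := h1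
    have h5 := Nat.mul_le_mul_left (2 ^ l) h4
    rw [mul_add, mul_one] at h5
    omega

theorem rr_V {l : ℕ} : ∀ {k : ℕ} (S : Fin k → Fin l → Fin 3), Rr (l * k) (VN S) (VA S) := by
  intro k
  induction k with
  | zero =>
    intro S r hr
    have : r = 0 := by simpa using hr
    subst this
    simp [Nat.mod_one]
  | succ k ih =>
    intro S
    rw [VN_succ, VA_succ]
    have e : l * (k + 1) = l + l * k := by ring
    rw [e]
    exact rr_comp (rr_v _) (vN_lt' _) (vA_lt _) (ih _)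

theorem rr_app {l k u : ℕ} {x : ℕ × ℕ} (h : Rr u x.1 x.2) (S : Fin k → Fin l → Fin 3) :
    Rr (l * k + u) (app x S).1 (app x S).2 :=
  rr_comp (rr_V S) (VN_lt' S) (VA_lt' S) h

section mono

variable {q l k : ℕ} {ε : ℝ} {om : ℕ → ℕ × ℕ → ℝ}

/-- monotone on reachable states -/
theorem eq_mono (hN : PINStmt) (hom : ∀ J z, 0 ≤ om J z) (f g : ℕ × ℕ → ℝ) :
    ∀ (n J u : ℕ) (x : ℕ × ℕ), Rr u x.1 x.2 →
      (∀ y : ℕ × ℕ, Rr (l * k * n + u) y.1 y.2 → f y ≤ g y) →
      EQ q l k ε om J n f x ≤ EQ q l k ε om J n g x := by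
  intro n
  induction n with
  | zero =>
    intro J u x hx hfg
    rw [EQ_zero, EQ_zero]
    exact hfg x (by simpa using hx)
  | succ n ih =>
    intro J u x hx hfg
    rw [EQ_succ, EQ_succ]
    refine sum_le_sum fun S _ => ?_
    refine mul_le_mul_of_nonneg_left ?_ (hN q l k ε om hom J x S)
    refine ih (J - l * k) (l * k + u) (app x S) (rr_app hx S) fun y hy => hfg y ?_
    have e : l * k * (n + 1) + u = l * k * n + (l * k + u) := by ring
    rw [e]
    exact hy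

end mono

theorem app_mod_N {l k : ℕ} (hk : 0 < k) (x : ℕ × ℕ) (S : Fin k → Fin l → Fin 3) :
    (app x S).1 % 2 ^ l = vN (S ⟨0, hk⟩) := by
  obtain ⟨k, rfl⟩ : ∃ k', k = k' + 1 := ⟨k - 1, by omega⟩
  have e : (app x S).1 = 2 ^ l * (2 ^ (l * k) * x.1 + VN (fun i : Fin k => S i.succ)) + vN (S 0) := by
    have h3 : 2 ^ (l * (k + 1)) = 2 ^ l * 2 ^ (l * k) := by
      rw [← pow_add]
      congr 1
      ring
    change 2 ^ (l * (k + 1)) * x.1 + VN S = _
    rw [VN_succ, h3]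
    ring
  rw [e, Nat.mul_add_mod, Nat.mod_eq_of_lt (vN_lt' _)]
  rfl

theorem app_mod_A {l k : ℕ} (hk : 0 < k) (x : ℕ × ℕ) (S : Fin k → Fin l → Fin 3) :
    (app x S).2 % 2 ^ l = vA (S ⟨0, hk⟩) := by
  obtain ⟨k, rfl⟩ : ∃ k', k = k' + 1 := ⟨k - 1, by omega⟩
  have e : (app x S).2 = 2 ^ l * (2 ^ (l * k) * x.2 + VA (fun i : Fin k => S i.succ)) + vA (S 0) := by
    have h3 : 2 ^ (l * (k + 1)) = 2 ^ l * 2 ^ (l * k) := by
      rw [← pow_add]
      congr 1
      ring
    change 2 ^ (l * (k + 1)) * x.2 + VA S = _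
    rw [VA_succ, h3]
    ring
  rw [e, Nat.mul_add_mod, Nat.mod_eq_of_lt (vA_lt _)]
  rfl

theorem vN_ne {l : ℕ} (s : Fin l → Fin 3) (h : 0 < cn 1 s) : vN s ≠ vA s := by
  have h1 : vA s = vN s + ∑ i : Fin l, 2 ^ (i : ℕ) * (if s i = 1 then 1 else 0) := by
    unfold vA vN
    rw [← sum_add_distrib]
    refine sum_congr rfl fun i _ => ?_
    rw [← mul_add]
    congr 1
    generalize s i = c
    fin_cases c <;> simp
  unfold cn at h
  rw [card_pos] at h
  obtain ⟨i, hi⟩ := h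
  rw [mem_filter] at hi
  have h2 : 0 < ∑ i : Fin l, 2 ^ (i : ℕ) * (if s i = 1 then 1 else 0) := by
    refine sum_pos' (fun _ _ => Nat.zero_le _) ⟨i, mem_univ _, ?_⟩
    rw [if_pos hi.2]
    positivity
  omega

/-- trivial bound -/
theorem bad_le (W J : ℕ) (y : ℕ × ℕ) : bad 2 W J y ≤ W := by
  classical
  unfold bad
  have h : ((range (J + W + 1)).filter fun m => 2 ^ J ≤ 2 ^ m ∧ 2 ^ m < 2 ^ (J + W) ∧
      ¬ Sure 2 m J y) ⊆ Ico J (J + W) := by
    intro m hm
    rw [mem_filter] at hm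
    rw [mem_Ico]
    exact ⟨(Nat.pow_le_pow_iff_right (by norm_num)).1 hm.2.1,
      (Nat.pow_lt_pow_iff_right (by norm_num)).1 hm.2.2.1⟩
  refine (card_le_card h).trans ?_
  rw [Nat.card_Ico]
  omega

/-- levels from `J + l` on are decided -/
theorem bad_le' {l W J : ℕ} {y : ℕ × ℕ}
    (h : ∀ r, l ≤ r → r ≤ W → y.1 % 2 ^ r < y.2 % 2 ^ r) : bad 2 W J y ≤ l := by
  classical
  unfold bad
  have h' : ((range (J + W + 1)).filter fun m => 2 ^ J ≤ 2 ^ m ∧ 2 ^ m < 2 ^ (J + W) ∧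
      ¬ Sure 2 m J y) ⊆ Ico J (J + l) := by
    intro m hm
    rw [mem_filter] at hm
    have h1 : J ≤ m := (Nat.pow_le_pow_iff_right (by norm_num)).1 hm.2.1
    have h2 : m < J + W := (Nat.pow_lt_pow_iff_right (by norm_num)).1 hm.2.2.1
    rw [mem_Ico]
    refine ⟨h1, ?_⟩
    by_contra h3
    apply hm.2.2.2
    have h4 := h (m - J) (by omega) (by omega)
    have e : 2 ^ m = 2 ^ (m - J) * 2 ^ J := by
      rw [← pow_add]
      congr 1
      omega
    have h5 : y.2 % 2 ^ (m - J) < 2 ^ (m - J) := Nat.mod_lt _ (by positivity)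
    unfold Sure
    rw [e, Nat.mul_mod_mul_right, Nat.mul_mod_mul_right]
    refine ⟨?_, ?_⟩
    · calc y.1 % 2 ^ (m - J) * 2 ^ J + 2 ^ J = (y.1 % 2 ^ (m - J) + 1) * 2 ^ J := by ring
        _ ≤ y.2 % 2 ^ (m - J) * 2 ^ J := Nat.mul_le_mul_right _ h4
    · calc y.2 % 2 ^ (m - J) * 2 ^ J + 2 ^ J = (y.2 % 2 ^ (m - J) + 1) * 2 ^ J := by ring
        _ ≤ 2 ^ (m - J) * 2 ^ J := Nat.mul_le_mul_right _ h5
  refine (card_le_card h').trans ?_
  rw [Nat.card_Ico]
  omega

open Classical in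
/-- indicator of an atypical lowest macro-digit -/
noncomputable def hi (l : ℕ) (e : ℕ) : ℝ :=
  if ∃ s : Fin l → Fin 3, vN s = e ∧ ¬ typN eb s then 1 else 0

theorem hi_vN {l : ℕ} (s : Fin l → Fin 3) (h : ¬ typN eb s) : hi l (vN s) = 1 := by
  unfold hi
  rw [if_pos ⟨s, rfl, h⟩]

theorem hi_nonneg (l e : ℕ) : 0 ≤ hi l e := by
  unfold hi
  split_ifs <;> norm_num

theorem sum_hi {l : ℕ} (hM : Marg eb l) :
    ∑ e ∈ range (2 ^ l), hi l e * (1 / 2 ^ l) = atyp eb l := by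
  classical
  have h1 : ∀ e ∈ range (2 ^ l), hi l e * (1 / 2 ^ l) =
      ∑ s : Fin l → Fin 3, (if vN s = e then (if typN eb s then 0 else pF eb s) else 0) := by
    intro e he
    have h2 := hM e (mem_range.1 he)
    have h2' : (1 : ℝ) / 2 ^ l = ∑ s : Fin l → Fin 3, (if vN s = e then pF eb s else 0) := by
      rw [← h2]
    rw [h2', mul_sum]
    refine sum_congr rfl fun s _ => ?_
    by_cases hs : vN s = e
    · rw [if_pos hs, if_pos hs]
      by_cases ht : typN eb s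
      · rw [if_pos ht]
        unfold hi
        rw [if_neg, zero_mul]
        rintro ⟨s', hs', ht'⟩
        exact ht' ((typN_congr eb s' s (hs'.trans hs.symm)).2 ht)
      · rw [if_neg ht, ← hs, hi_vN s ht, one_mul]
    · rw [if_neg hs, if_neg hs, mul_zero]
  rw [sum_congr rfl h1, sum_comm]
  unfold atyp
  refine sum_congr rfl fun s _ => ?_
  rw [sum_ite_eq, if_pos (mem_range.2 (vN_lt' s))]

theorem eb_pos : (0 : ℝ) < eb ∧ (eb : ℝ) < 1 / 4 := by
  unfold eb
  norm_num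

/-- **BSW** -/
theorem bsw (hE : EQBStmt) (hN : PINStmt) : BSWStmt := by
  classical
  intro q l k n Jt om hM hl hk hom hJt x
  obtain ⟨hconst, hmono, hlin, htow, hfun⟩ := hE q l k eb om hM hom
  have hat : 0 ≤ atyp eb l := by
    rw [← sum_hi hM]
    exact sum_nonneg fun e _ => mul_nonneg (hi_nonneg _ _) (by positivity)
  rcases Nat.eq_zero_or_pos n with rfl | hn
  · rw [EQ_zero]
    have h0 := bad_le (l * k * 0) (Jt - l * k * 0) x
    have h1 : (bad 2 (l * k * 0) (Jt - l * k * 0) x : ℝ) ≤ ((l * k * 0 : ℕ) : ℝ) := by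
      exact_mod_cast h0
    refine h1.trans ?_
    simp
  obtain ⟨n, rfl⟩ : ∃ n', n = n' + 1 := ⟨n - 1, by omega⟩
  obtain ⟨W, hW⟩ : ∃ W, W = l * k * (n + 1) := ⟨_, rfl⟩
  obtain ⟨J, hJ⟩ : ∃ J, J = Jt - l * k * (n + 1) := ⟨_, rfl⟩
  rw [← hJ, ← hW]
  -- the comparison
  have hstep : EQ q l k eb om Jt (n + 1) (fun y => (bad 2 W J y : ℝ)) x ≤
      EQ q l k eb om Jt (n + 1) (fun y => (W : ℝ) * hi l (y.1 % 2 ^ l) + l) x := by
    rw [htow n 1, htow n 1]
    refine eq_mono hN hom _ _ n Jt 0 x (fun r hr => by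
      have : r = 0 := by omega
      subst this
      simp [Nat.mod_one]) fun y hy => ?_
    simp only [EQ_succ, EQ_zero]
    refine sum_le_sum fun S _ => ?_
    by_cases hp : piQ q l k eb om (Jt - l * k * n) y S = 0
    · rw [hp, zero_mul, zero_mul]
    refine mul_le_mul_of_nonneg_left ?_ (hN q l k eb om hom _ y S)
    rw [app_mod_N hk]
    by_cases ht : typN eb (S ⟨0, hk⟩)
    · -- typical: there is a symbol one
      have hPF : PF eb S ≠ 0 := by
        intro h0
        apply hp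
        unfold piQ
        split_ifs
        · rw [h0, zero_mul, zero_div]
        · exact h0
      have hpF : pF eb (S ⟨0, hk⟩) ≠ 0 := by
        intro h0
        apply hPF
        unfold PF
        exact prod_eq_zero (mem_univ (⟨0, hk⟩ : Fin k)) h0
      have hty : typ eb (S ⟨0, hk⟩) := by
        by_contra h0
        apply hpF
        unfold pF
        rw [if_pos ht, if_neg h0]
      have hcn : 0 < cn 1 (S ⟨0, hk⟩) := by
        have h1 := (abs_le.1 hty.2).1
        have h2 : (0 : ℝ) < l := by exact_mod_cast hl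
        have h3 : eb * (l : ℝ) < 1 / 4 * l := mul_lt_mul_of_pos_right eb_pos.2 h2
        have h4 : (0 : ℝ) < cn 1 (S ⟨0, hk⟩) := by linarith
        exact_mod_cast h4
      have hne := vN_ne _ hcn
      have hz : Rr (l * k + (l * k * n + 0)) (app y S).1 (app y S).2 := rr_app hy S
      have hb : bad 2 W J (app y S) ≤ l := by
        refine bad_le' fun r hr1 hr2 => ?_
        have h1 := hz r (by rw [hW] at hr2; linarith [hr2])
        refine lt_of_le_of_ne h1 fun h2 => hne ?_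
        rw [← app_mod_N hk y S, ← app_mod_A hk y S]
        have h3 : 2 ^ l ∣ 2 ^ r := Nat.pow_dvd_pow 2 hr1
        rw [← Nat.mod_mod_of_dvd (app y S).1 h3, h2, Nat.mod_mod_of_dvd _ h3]
      have hb' : (bad 2 W J (app y S) : ℝ) ≤ l := by exact_mod_cast hb
      have := mul_nonneg (Nat.cast_nonneg (α := ℝ) W) (hi_nonneg l (vN (S ⟨0, hk⟩)))
      linarith
    · rw [hi_vN _ ht, mul_one]
      have hb' : (bad 2 W J (app y S) : ℝ) ≤ W := by exact_mod_cast bad_le W J (app y S)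
      have : (0 : ℝ) ≤ l := Nat.cast_nonneg l
      linarith
  refine hstep.trans ?_
  rw [hlin (n + 1) Jt (fun y => hi l (y.1 % 2 ^ l)) (fun _ => (l : ℝ)) (W : ℝ) x,
    hconst (n + 1) Jt (l : ℝ) x, hfun (n + 1) Jt (fun ν => hi l (ν % 2 ^ l)) x, ← hW]
  have hlW : l ≤ W := by
    rw [hW]
    have h1 : 1 ≤ k * (n + 1) := Nat.mul_pos hk (by omega)
    calc l = l * 1 := (mul_one l).symm
      _ ≤ l * (k * (n + 1)) := Nat.mul_le_mul_left l h1
      _ = l * k * (n + 1) := by ring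
  have havg : (∑ η ∈ range (2 ^ W), hi l ((2 ^ W * x.1 + η) % 2 ^ l)) / 2 ^ W = atyp eb l := by
    have h1 : ∀ η ∈ range (2 ^ W), hi l ((2 ^ W * x.1 + η) % 2 ^ l) = hi l (η % 2 ^ l) := by
      intro η _
      rw [mod_low hlW]
    rw [sum_congr rfl h1]
    have e : 2 ^ W = 2 ^ l * 2 ^ (W - l) := by
      rw [← pow_add]
      congr 1
      omega
    have h2 := sum_block (2 ^ (W - l)) (2 ^ l) (fun η => hi l (η % 2 ^ l))
    rw [e, ← h2]
    have h3 : ∀ i ∈ range (2 ^ (W - l)), ∑ j ∈ range (2 ^ l), hi l ((2 ^ l * i + j) % 2 ^ l) =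
        ∑ j ∈ range (2 ^ l), hi l j := by
      intro i _
      refine sum_congr rfl fun j hj => ?_
      rw [Nat.mul_add_mod, Nat.mod_eq_of_lt (mem_range.1 hj)]
    rw [sum_congr rfl h3, sum_const, card_range, nsmul_eq_mul, ← sum_hi hM, ← sum_mul]
    have e2 : (2 : ℝ) ^ W = 2 ^ l * 2 ^ (W - l) := by exact_mod_cast e
    rw [e2]
    push_cast
    field_simp
  rw [havg]
  have e3 : (W : ℝ) = l * k * ((n + 1 : ℕ) : ℝ) := by
    rw [hW]
    push_cast
    ring
  rw [e3]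
  linarith

end Pool.Agent.H24.FD.H88
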