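import Pool.Agent.H88.FD.RSH

/-!
# MP_1f2761, `k = 2`: row CSP of board `fd` (large sieve for the cells, in the form of points)
-/

set_option autoImplicit false

namespace Pool.FD

open Finset Pool.K2 MeasureTheory

noncomputable section

/-- one-dimensional trigonometric polynomial -/
def tq (K : ℕ) (a : ℤ → ℂ) (u : ℝ) : ℂ := ∑ m ∈ Ioo (-(K : ℤ)) K, a m * ex (m * u)

/-- coefficients of the derivative -/
def dq (a : ℤ → ℂ) : ℤ → ℂ := fun m => 2 * Real.pi * Complex.I * m * a m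

theorem ex_deriv (m : ℝ) (u : ℝ) :
    HasDerivAt (fun u : ℝ => ex (m * u)) (2 * Real.pi * Complex.I * m * ex (m * u)) u := by
  have h1 : HasDerivAt (fun u : ℝ => 2 * Real.pi * ((m * u : ℝ) : ℂ) * Complex.I)
      (2 * Real.pi * (m : ℂ) * Complex.I) u := by
    have h2 : HasDerivAt (fun u : ℝ => m * u) m u := by
      simpa using (hasDerivAt_id u).const_mul m
    exact (h2.ofReal_comp.const_mul (2 * Real.pi : ℂ)).mul_const Complex.I
  refine h1.cexp.congr_deriv ?_
  unfold ex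
  ring

theorem tq_deriv (K : ℕ) (a : ℤ → ℂ) (u : ℝ) : HasDerivAt (tq K a) (tq K (dq a) u) u := by
  have h1 : HasDerivAt (fun u : ℝ => ∑ m ∈ Ioo (-(K : ℤ)) K, a m * ex ((m : ℝ) * u))
      (∑ m ∈ Ioo (-(K : ℤ)) K, a m * (2 * Real.pi * Complex.I * ((m : ℝ) : ℂ) *
        ex ((m : ℝ) * u))) u :=
    HasDerivAt.fun_sum fun m _ => (ex_deriv m u).const_mul (a m)
  refine h1.congr_deriv ?_
  unfold tq dq
  refine sum_congr rfl fun m _ => ?_
  push_cast
  ring

theorem tq_cont (K : ℕ) (a : ℤ → ℂ) : Continuous (tq K a) := by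
  unfold tq
  refine continuous_finsetSum _ fun m _ => ?_
  exact continuous_const.mul (ex_cont.comp (by fun_prop))

theorem tq_parseval (K : ℕ) (a : ℤ → ℂ) :
    ∫ u in (0 : ℝ)..1, ‖tq K a u‖ ^ 2 = ∑ m ∈ Ioo (-(K : ℤ)) K, ‖a m‖ ^ 2 := by
  classical
  have h0 : ∀ u : ℝ, ((‖tq K a u‖ ^ 2 : ℝ) : ℂ) =
      ∑ m ∈ Ioo (-(K : ℤ)) K, ∑ n ∈ Ioo (-(K : ℤ)) K,
        a m * (starRingEnd ℂ) (a n) * ex (u * ((m - n : ℤ) : ℝ)) := by
    intro u
    have h1 : ((‖tq K a u‖ ^ 2 : ℝ) : ℂ) = tq K a u * (starRingEnd ℂ) (tq K a u) := by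
      rw [Complex.mul_conj, Complex.normSq_eq_norm_sq]
    rw [h1]
    unfold tq
    rw [sum_mul]
    refine sum_congr rfl fun m _ => ?_
    rw [map_sum, mul_sum]
    refine sum_congr rfl fun n _ => ?_
    rw [map_mul, ← ex_neg]
    have h2 : ex (u * ((m - n : ℤ) : ℝ)) = ex (m * u) * ex (-(n * u)) := by
      rw [← ex_add]
      congr 1
      push_cast
      ring
    rw [h2]
    ring
  have h3 : ((∫ u in (0 : ℝ)..1, ‖tq K a u‖ ^ 2 : ℝ) : ℂ) =
      ((∑ m ∈ Ioo (-(K : ℤ)) K, ‖a m‖ ^ 2 : ℝ) : ℂ) := by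
    have h1 : ((∫ u in (0 : ℝ)..1, ‖tq K a u‖ ^ 2 : ℝ) : ℂ) =
        ∫ u in (0 : ℝ)..1, ((‖tq K a u‖ ^ 2 : ℝ) : ℂ) :=
      (intervalIntegral.integral_ofReal).symm
    rw [h1]
    simp only [h0]
    have hci : ∀ (m n : ℤ), Continuous fun u : ℝ =>
        a m * (starRingEnd ℂ) (a n) * ex (u * ((m - n : ℤ) : ℝ)) :=
      fun m n => continuous_const.mul (ex_cont.comp (by fun_prop))
    rw [intervalIntegral.integral_finsetSum]
    swap
    · intro m _
      exact (continuous_finsetSum _ fun n _ => hci m n).intervalIntegrable _ _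
    rw [Complex.ofReal_sum]
    refine sum_congr rfl fun m hm => ?_
    rw [intervalIntegral.integral_finsetSum]
    swap
    · intro n _
      exact (hci m n).intervalIntegrable _ _
    rw [sum_eq_single m]
    · rw [intervalIntegral.integral_const_mul, int_ex]
      simp only [sub_self, if_true, mul_one]
      rw [Complex.mul_conj, Complex.normSq_eq_norm_sq]
    · intro n _ hn
      rw [intervalIntegral.integral_const_mul, int_ex, if_neg, mul_zero]
      intro h
      exact hn (by omega)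
    · intro h
      exact absurd hm h
  exact_mod_cast h3

theorem int_lin {g h : ℝ → ℝ} (hg : Continuous g) (hh : Continuous h) (a b α β : ℝ) :
    ∫ u in a..b, (α * g u + β * h u) = α * (∫ u in a..b, g u) + β * ∫ u in a..b, h u := by
  rw [← intervalIntegral.integral_const_mul, ← intervalIntegral.integral_const_mul]
  exact intervalIntegral.integral_add ((continuous_const.mul hg).intervalIntegrable _ _)
    ((continuous_const.mul hh).intervalIntegrable _ _)

/-- the Sobolev inequality of Gallagher on an interval of length `1 / K` -/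
theorem gall {K : ℝ} (hK : 0 < K) (f f' : ℝ → ℂ) (hd : ∀ t, HasDerivAt f (f' t) t)
    (hc : Continuous f') {a x : ℝ} (h1 : a ≤ x) (h2 : x ≤ a + 1 / K) :
    ‖f x‖ ^ 2 ≤ ∫ u in a..(a + 1 / K), ((1 + 2 * Real.pi) * K * ‖f u‖ ^ 2 +
      1 / (2 * Real.pi * K) * ‖f' u‖ ^ 2) := by
  have hπ := Real.pi_pos
  have hl : 0 < 1 / K := by positivity
  obtain ⟨b, hb⟩ : ∃ b, b = a + 1 / K := ⟨_, rfl⟩
  rw [← hb] at h2 ⊢
  have hab : a ≤ b := h1.trans h2
  have hba : b - a = 1 / K := by rw [hb]; ring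
  have hfc : Continuous f := continuous_iff_continuousAt.2 fun t => (hd t).continuousAt
  -- the derivative of the square
  have hg : ∀ t, HasDerivAt (fun t => ‖f t‖ ^ 2) (2 * inner ℝ (f t) (f' t)) t :=
    fun t => (hd t).norm_sq
  have hgc : Continuous fun t => 2 * inner ℝ (f t) (f' t) :=
    continuous_const.mul (hfc.inner hc)
  obtain ⟨G, hG⟩ : ∃ G : ℝ → ℝ, G = fun t => 2 * Real.pi * K * ‖f t‖ ^ 2 +
      1 / (2 * Real.pi * K) * ‖f' t‖ ^ 2 := ⟨_, rfl⟩
  have hGc : Continuous G := by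
    rw [hG]
    exact (continuous_const.mul (hfc.norm.pow 2)).add (continuous_const.mul (hc.norm.pow 2))
  have hbd : ∀ t, |2 * inner ℝ (f t) (f' t)| ≤ G t := by
    intro t
    have h3 := abs_real_inner_le_norm (f t) (f' t)
    rw [abs_mul, abs_two, hG]
    simp only
    have h5 : 0 < 2 * Real.pi * K := by positivity
    have h4 : 2 * (‖f t‖ * ‖f' t‖) ≤ 2 * Real.pi * K * ‖f t‖ ^ 2 +
        1 / (2 * Real.pi * K) * ‖f' t‖ ^ 2 := by
      have h6 : 0 ≤ (2 * Real.pi * K * ‖f t‖ - ‖f' t‖) ^ 2 / (2 * Real.pi * K) := by positivity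
      have h7 : (2 * Real.pi * K * ‖f t‖ - ‖f' t‖) ^ 2 / (2 * Real.pi * K) =
          2 * Real.pi * K * ‖f t‖ ^ 2 + 1 / (2 * Real.pi * K) * ‖f' t‖ ^ 2 -
            2 * (‖f t‖ * ‖f' t‖) := by
        field_simp
        ring
      linarith
    linarith
  have hGint : 0 ≤ ∫ t in a..b, G t :=
    intervalIntegral.integral_nonneg hab fun t _ => (abs_nonneg _).trans (hbd t)
  -- comparison of two points
  have hcmp : ∀ u ∈ Set.Icc a b, ‖f x‖ ^ 2 ≤ ‖f u‖ ^ 2 + ∫ t in a..b, G t := by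
    intro u hu
    have h3 : ∫ t in u..x, 2 * inner ℝ (f t) (f' t) = ‖f x‖ ^ 2 - ‖f u‖ ^ 2 :=
      intervalIntegral.integral_eq_sub_of_hasDerivAt (fun t _ => hg t)
        (hgc.intervalIntegrable _ _)
    have h4 : |∫ t in u..x, 2 * inner ℝ (f t) (f' t)| ≤ ∫ t in a..b, G t := by
      have h5 : |∫ t in u..x, 2 * inner ℝ (f t) (f' t)| ≤ |∫ t in u..x, G t| := by
        have := intervalIntegral.norm_integral_le_abs_of_norm_le (a := u) (b := x) (μ := volume)
          (f := fun t => 2 * inner ℝ (f t) (f' t)) (g := G)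
          (Filter.Eventually.of_forall fun t => hbd t) (hGc.intervalIntegrable _ _)
        simpa using this
      refine h5.trans ?_
      have hG0 : ∀ t, 0 ≤ G t := fun t => (abs_nonneg _).trans (hbd t)
      rcases le_total u x with h | h
      · rw [abs_of_nonneg (intervalIntegral.integral_nonneg h fun t _ => hG0 t)]
        exact intervalIntegral.integral_mono_interval hu.1 h h2
          (Filter.Eventually.of_forall hG0) (hGc.intervalIntegrable _ _)
      · rw [intervalIntegral.integral_symm, abs_neg,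
          abs_of_nonneg (intervalIntegral.integral_nonneg h fun t _ => hG0 t)]
        exact intervalIntegral.integral_mono_interval h1 h hu.2
          (Filter.Eventually.of_forall hG0) (hGc.intervalIntegrable _ _)
    rw [h3] at h4
    have := (abs_le.1 h4).2
    linarith
  have havg : ∫ _u in a..b, ‖f x‖ ^ 2 ≤ ∫ u in a..b, (‖f u‖ ^ 2 + ∫ t in a..b, G t) := by
    refine intervalIntegral.integral_mono_on hab (by simp) ?_ hcmp
    exact (((hfc.norm.pow 2)).add continuous_const).intervalIntegrable _ _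
  have hfc2 : Continuous fun u => ‖f u‖ ^ 2 := hfc.norm.pow 2
  have e0 : ∫ u in a..b, (‖f u‖ ^ 2 + ∫ t in a..b, G t) =
      (∫ u in a..b, ‖f u‖ ^ 2) + ∫ _u in a..b, (∫ t in a..b, G t) :=
    intervalIntegral.integral_add (hfc2.intervalIntegrable _ _) (by simp)
  rw [e0, intervalIntegral.integral_const, intervalIntegral.integral_const, hba,
    smul_eq_mul, smul_eq_mul] at havg
  have h8 : ‖f x‖ ^ 2 ≤ K * (∫ u in a..b, ‖f u‖ ^ 2) + ∫ t in a..b, G t := by
    have h9 := mul_le_mul_of_nonneg_left havg hK.le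
    have h10 : K * (1 / K * ‖f x‖ ^ 2) = ‖f x‖ ^ 2 := by
      field_simp
    have h11 : K * ((∫ u in a..b, ‖f u‖ ^ 2) + 1 / K * ∫ t in a..b, G t) =
        K * (∫ u in a..b, ‖f u‖ ^ 2) + ∫ t in a..b, G t := by
      field_simp
    rw [h10, h11] at h9
    exact h9
  refine h8.trans (le_of_eq ?_)
  have hc2 : Continuous fun u => ‖f' u‖ ^ 2 := hc.norm.pow 2
  rw [hG, int_lin hfc2 hc2, int_lin hfc2 hc2]
  ring

/-- sum of the integrals over the cells -/
theorem sum_cells {K : ℕ} (hK : 0 < K) (g : ℝ → ℝ) (hg : Continuous g) :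
    ∑ i ∈ range K, ∫ u in ((i : ℝ) / K)..((i : ℝ) / K + 1 / (K : ℝ)), g u =
      ∫ u in (0 : ℝ)..1, g u := by
  have h1 := intervalIntegral.sum_integral_adjacent_intervals (μ := volume) (f := g)
    (a := fun k : ℕ => (k : ℝ) / K) (n := K) fun k _ => hg.intervalIntegrable _ _
  have hK' : (K : ℝ) ≠ 0 := by
    have : K ≠ 0 := by omega
    exact_mod_cast this
  simp only [Nat.cast_zero, zero_div, div_self hK'] at h1
  rw [← h1]
  refine sum_congr rfl fun i _ => ?_
  congr 1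
  push_cast
  ring

theorem dq_le {K : ℕ} (a : ℤ → ℂ) :
    ∑ m ∈ Ioo (-(K : ℤ)) K, ‖dq a m‖ ^ 2 ≤
      (2 * Real.pi * K) ^ 2 * ∑ m ∈ Ioo (-(K : ℤ)) K, ‖a m‖ ^ 2 := by
  rw [mul_sum]
  refine sum_le_sum fun m hm => ?_
  unfold dq
  have hπ := Real.pi_pos
  have h1 : ‖(2 * Real.pi * Complex.I * m * a m : ℂ)‖ = 2 * Real.pi * |(m : ℝ)| * ‖a m‖ := by
    rw [norm_mul, norm_mul, norm_mul, norm_mul, Complex.norm_I, Complex.norm_real,
      Complex.norm_intCast]
    simp [abs_of_pos hπ]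
  rw [h1, ← mul_pow]
  rw [mem_Ioo] at hm
  have h2 : |(m : ℝ)| ≤ K := by
    rw [abs_le]
    refine ⟨?_, ?_⟩
    · have := hm.1.le
      exact_mod_cast this
    · have := hm.2.le
      exact_mod_cast this
  refine pow_le_pow_left₀ (by positivity) ?_ 2
  exact mul_le_mul_of_nonneg_right (mul_le_mul_of_nonneg_left h2 (by positivity)) (norm_nonneg _)

/-- the integral which appears in both steps -/
theorem int_ab {K : ℕ} (hK : 0 < K) (a : ℤ → ℂ) :
    ∫ u in (0 : ℝ)..1, ((1 + 2 * Real.pi) * K * ‖tq K a u‖ ^ 2 +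
      1 / (2 * Real.pi * K) * ‖tq K (dq a) u‖ ^ 2) ≤
      (1 + 4 * Real.pi) * K * ∑ m ∈ Ioo (-(K : ℤ)) K, ‖a m‖ ^ 2 := by
  have hπ := Real.pi_pos
  have hK' : (0 : ℝ) < K := by exact_mod_cast hK
  have hc1 : Continuous fun u => ‖tq K a u‖ ^ 2 := (tq_cont K a).norm.pow 2
  have hc2 : Continuous fun u => ‖tq K (dq a) u‖ ^ 2 := (tq_cont K (dq a)).norm.pow 2
  rw [int_lin hc1 hc2, tq_parseval, tq_parseval]
  have h1 := mul_le_mul_of_nonneg_left (dq_le (K := K) a)
    (by positivity : 0 ≤ 1 / (2 * Real.pi * K))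
  have h2 : 1 / (2 * Real.pi * K) * ((2 * Real.pi * K) ^ 2 *
      ∑ m ∈ Ioo (-(K : ℤ)) K, ‖a m‖ ^ 2) = 2 * Real.pi * K *
      ∑ m ∈ Ioo (-(K : ℤ)) K, ‖a m‖ ^ 2 := by
    field_simp
  rw [h2] at h1
  calc _ ≤ (1 + 2 * Real.pi) * K * (∑ m ∈ Ioo (-(K : ℤ)) K, ‖a m‖ ^ 2) +
        2 * Real.pi * K * ∑ m ∈ Ioo (-(K : ℤ)) K, ‖a m‖ ^ 2 := add_le_add le_rfl h1
    _ = _ := by ring

/-- the one-dimensional statement -/
theorem one_dim {K : ℕ} (hK : 0 < K) (a : ℤ → ℂ) (x : ℕ → ℝ)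
    (hx : ∀ i ∈ range K, (i : ℝ) / K ≤ x i ∧ x i ≤ (i + 1) / K) :
    ∑ i ∈ range K, ‖tq K a (x i)‖ ^ 2 ≤
      (1 + 4 * Real.pi) * K * ∑ m ∈ Ioo (-(K : ℤ)) K, ‖a m‖ ^ 2 := by
  have hK' : (0 : ℝ) < K := by exact_mod_cast hK
  refine le_trans ?_ (int_ab hK a)
  rw [← sum_cells hK]
  · refine sum_le_sum fun i hi => ?_
    refine gall hK' _ _ (tq_deriv K a) (tq_cont K _) (hx i hi).1 ?_
    refine (hx i hi).2.trans (le_of_eq ?_)
    ring
  · exact (continuous_const.mul ((tq_cont K a).norm.pow 2)).add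
      (continuous_const.mul ((tq_cont K (dq a)).norm.pow 2))

/-- **(2.7)** -/
theorem csp : CSPStmt := by
  classical
  intro K hK c x hx
  have hπ := Real.pi_pos
  have hK' : (0 : ℝ) < K := by exact_mod_cast hK
  -- slices
  obtain ⟨A, hA⟩ : ∃ A : ℝ → ℤ → ℂ, A = fun v m1 => tq K (fun m2 => c (m1, m2)) v := ⟨_, rfl⟩
  obtain ⟨B, hB⟩ : ∃ B : ℝ → ℤ → ℂ, B = fun u m2 => tq K (fun m1 => c (m1, m2)) u := ⟨_, rfl⟩
  obtain ⟨B', hB'⟩ : ∃ B' : ℝ → ℤ → ℂ,
    B' = fun u m2 => tq K (dq fun m1 => c (m1, m2)) u := ⟨_, rfl⟩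
  have e1 : ∀ u v : ℝ, tp K c u v = tq K (A v) u := by
    intro u v
    unfold tp tq bx
    rw [sum_product]
    refine sum_congr rfl fun m1 _ => ?_
    rw [hA]
    simp only
    unfold tq
    rw [sum_mul]
    refine sum_congr rfl fun m2 _ => ?_
    simp only
    rw [mul_assoc, ← ex_add]
    congr 2
    ring
  have e2 : ∀ u v : ℝ, tq K (A v) u = tq K (B u) v := by
    intro u v
    rw [hA, hB]
    simp only
    unfold tq
    simp only [sum_mul]
    rw [sum_comm]
    refine sum_congr rfl fun m2 _ => sum_congr rfl fun m1 _ => ?_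
    ring
  have e3 : ∀ u v : ℝ, tq K (dq (A v)) u = tq K (B' u) v := by
    intro u v
    rw [hA, hB']
    unfold dq
    simp only
    unfold tq
    simp only [sum_mul, mul_sum]
    rw [sum_comm]
    refine sum_congr rfl fun m2 _ => sum_congr rfl fun m1 _ => ?_
    ring
  have hBc : Continuous fun u => ∑ m ∈ Ioo (-(K : ℤ)) K, ‖B u m‖ ^ 2 := by
    rw [hB]
    exact continuous_finsetSum _ fun m _ => (tq_cont K _).norm.pow 2
  have hBc' : Continuous fun u => ∑ m ∈ Ioo (-(K : ℤ)) K, ‖B' u m‖ ^ 2 := by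
    rw [hB']
    exact continuous_finsetSum _ fun m _ => (tq_cont K _).norm.pow 2
  rw [sum_product]
  -- step one, for a fixed row
  have hstep : ∀ i ∈ range K, ∑ j ∈ range K, ‖tp K c (x (i, j)).1 (x (i, j)).2‖ ^ 2 ≤
      ∫ u in ((i : ℝ) / K)..((i : ℝ) / K + 1 / (K : ℝ)),
        ((1 + 2 * Real.pi) * K * ((1 + 4 * Real.pi) * K * ∑ m ∈ Ioo (-(K : ℤ)) K, ‖B u m‖ ^ 2) +
          1 / (2 * Real.pi * K) * ((1 + 4 * Real.pi) * K *
            ∑ m ∈ Ioo (-(K : ℤ)) K, ‖B' u m‖ ^ 2)) := by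
    intro i hi
    have h1 : ∀ j ∈ range K, ‖tp K c (x (i, j)).1 (x (i, j)).2‖ ^ 2 ≤
        ∫ u in ((i : ℝ) / K)..((i : ℝ) / K + 1 / (K : ℝ)),
          ((1 + 2 * Real.pi) * K * ‖tq K (B u) (x (i, j)).2‖ ^ 2 +
            1 / (2 * Real.pi * K) * ‖tq K (B' u) (x (i, j)).2‖ ^ 2) := by
      intro j hj
      have h2 := hx (i, j) (mem_product.2 ⟨hi, hj⟩)
      have h3 := gall hK' _ _ (tq_deriv K (A (x (i, j)).2)) (tq_cont K _)
        (a := (i : ℝ) / K) (x := (x (i, j)).1) h2.1 (h2.2.1.trans (le_of_eq (by ring)))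
      rw [e1]
      simp only [e2, e3] at h3 ⊢
      exact h3
    refine (sum_le_sum h1).trans ?_
    have hi1 : ∀ j ∈ range K, IntervalIntegrable (fun u : ℝ =>
        ((1 + 2 * Real.pi) * K * ‖tq K (B u) (x (i, j)).2‖ ^ 2 +
            1 / (2 * Real.pi * K) * ‖tq K (B' u) (x (i, j)).2‖ ^ 2)) volume ((i : ℝ) / K)
        ((i : ℝ) / K + 1 / (K : ℝ)) := by
      intro j _
      simp only [← e2, ← e3]
      exact ((continuous_const.mul ((tq_cont K _).norm.pow 2)).add
        (continuous_const.mul ((tq_cont K _).norm.pow 2))).intervalIntegrable _ _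
    rw [← intervalIntegral.integral_finsetSum hi1]
    refine intervalIntegral.integral_mono_on (by
      have : (0 : ℝ) < 1 / K := by positivity
      linarith) ?_ ?_ ?_
    · have hcs : Continuous fun u : ℝ => ∑ j ∈ range K,
          ((1 + 2 * Real.pi) * K * ‖tq K (B u) (x (i, j)).2‖ ^ 2 +
            1 / (2 * Real.pi * K) * ‖tq K (B' u) (x (i, j)).2‖ ^ 2) := by
        simp only [← e2, ← e3]
        exact continuous_finsetSum _ fun j _ => (continuous_const.mul ((tq_cont K _).norm.pow 2)).add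
          (continuous_const.mul ((tq_cont K _).norm.pow 2))
      exact hcs.intervalIntegrable _ _
    · exact ((continuous_const.mul (continuous_const.mul hBc)).add
        (continuous_const.mul (continuous_const.mul hBc'))).intervalIntegrable _ _
    · intro u _
      rw [sum_add_distrib, ← mul_sum, ← mul_sum]
      have hx2 : ∀ j ∈ range K, (j : ℝ) / K ≤ (x (i, j)).2 ∧ (x (i, j)).2 ≤ (j + 1) / K := by
        intro j hj
        have h2 := hx (i, j) (mem_product.2 ⟨hi, hj⟩)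
        exact ⟨h2.2.2.1, h2.2.2.2⟩
      have h4 := one_dim hK (B u) (fun j => (x (i, j)).2) hx2
      have h5 := one_dim hK (B' u) (fun j => (x (i, j)).2) hx2
      exact add_le_add (mul_le_mul_of_nonneg_left h4 (by positivity))
        (mul_le_mul_of_nonneg_left h5 (by positivity))
  refine (sum_le_sum hstep).trans ?_
  rw [sum_cells hK]
  swap
  · exact ((continuous_const.mul (continuous_const.mul hBc)).add
        (continuous_const.mul (continuous_const.mul hBc')))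
  -- step two: the remaining integral, coefficient by coefficient
  have e4 : ∀ u : ℝ, ((1 + 2 * Real.pi) * K * ((1 + 4 * Real.pi) * K *
        ∑ m ∈ Ioo (-(K : ℤ)) K, ‖B u m‖ ^ 2) +
          1 / (2 * Real.pi * K) * ((1 + 4 * Real.pi) * K *
            ∑ m ∈ Ioo (-(K : ℤ)) K, ‖B' u m‖ ^ 2)) =
      ∑ m2 ∈ Ioo (-(K : ℤ)) K, (1 + 4 * Real.pi) * K *
        ((1 + 2 * Real.pi) * K * ‖tq K (fun m1 => c (m1, m2)) u‖ ^ 2 +
          1 / (2 * Real.pi * K) * ‖tq K (dq fun m1 => c (m1, m2)) u‖ ^ 2) := by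
    intro u
    rw [hB, hB']
    simp only
    rw [← mul_sum, sum_add_distrib, ← mul_sum, ← mul_sum]
    ring
  simp only [e4]
  rw [intervalIntegral.integral_finsetSum]
  swap
  · intro m2 _
    exact (continuous_const.mul ((continuous_const.mul ((tq_cont K _).norm.pow 2)).add
        (continuous_const.mul ((tq_cont K _).norm.pow 2)))).intervalIntegrable _ _
  have h6 : ∀ m2 ∈ Ioo (-(K : ℤ)) K, ∫ u in (0 : ℝ)..1, (1 + 4 * Real.pi) * K *
        ((1 + 2 * Real.pi) * K * ‖tq K (fun m1 => c (m1, m2)) u‖ ^ 2 +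
          1 / (2 * Real.pi * K) * ‖tq K (dq fun m1 => c (m1, m2)) u‖ ^ 2) ≤
      ((1 + 4 * Real.pi) * K) ^ 2 * ∑ m1 ∈ Ioo (-(K : ℤ)) K, ‖c (m1, m2)‖ ^ 2 := by
    intro m2 _
    rw [intervalIntegral.integral_const_mul]
    have := mul_le_mul_of_nonneg_left (int_ab hK fun m1 => c (m1, m2))
      (by positivity : 0 ≤ (1 + 4 * Real.pi) * K)
    refine this.trans (le_of_eq ?_)
    ring
  refine (sum_le_sum h6).trans ?_
  rw [← mul_sum]
  unfold bx
  rw [sum_product, sum_comm]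
  refine mul_le_mul_of_nonneg_right ?_ (sum_nonneg fun _ _ => sum_nonneg fun _ _ => by positivity)
  rw [mul_pow]
  refine mul_le_mul_of_nonneg_right ?_ (by positivity)
  have := Real.pi_lt_d2
  nlinarith

end

end Pool.FD
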