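import Pool.Agent.H84.FD.S
import Pool.Agent.H42.K2.Fej
import Pool.Agent.H42.K2.Par

/-!
# MP_1f2761, `k = 2`: rows RSH, RZD, VAN, FCT, DIN of board `fd`
-/

set_option autoImplicit false

namespace Pool.FD

open Finset Pool.K2 MeasureTheory

theorem nm_lt_bx {K : ℕ} {m : ℤ × ℤ} (h : nm m < K) : m ∈ bx K := by
  unfold nm at h
  rw [max_lt_iff] at h
  obtain ⟨h1, h2⟩ := h
  rw [abs_lt] at h1 h2
  unfold bx
  rw [mem_product, mem_Ioo, mem_Ioo]
  refine ⟨⟨?_, ?_⟩, ?_, ?_⟩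
  · have := h1.1
    exact_mod_cast this
  · have := h1.2
    exact_mod_cast this
  · have := h2.1
    exact_mod_cast this
  · have := h2.2
    exact_mod_cast this

theorem bx_nm_lt {K : ℕ} {m : ℤ × ℤ} (h : m ∈ bx K) : nm m < K := by
  unfold bx at h
  rw [mem_product, mem_Ioo, mem_Ioo] at h
  obtain ⟨⟨h1, h2⟩, h3, h4⟩ := h
  unfold nm
  rw [max_lt_iff, abs_lt, abs_lt]
  refine ⟨⟨?_, ?_⟩, ?_, ?_⟩
  · exact_mod_cast h1
  · exact_mod_cast h2
  · exact_mod_cast h3
  · exact_mod_cast h4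

theorem sh_sub (q i P : ℕ) : sh q i P ⊆ bx (q ^ i) := by
  intro m hm
  unfold sh at hm
  rw [mem_filter] at hm
  refine nm_lt_bx ?_
  push_cast
  exact hm.2.2

theorem rsh (hC : CSPStmt) : RSHStmt := by
  classical
  intro q i r hq p P hP Om y x hx
  have hK : 0 < q ^ i := by positivity
  obtain ⟨c, hc⟩ : ∃ c : ℤ × ℤ → ℂ, c = fun m => if m ∈ sh q i P then Rc r p P Om 0 y m else 0 :=
    ⟨_, rfl⟩
  have h1 := hC (q ^ i) hK c x hx
  have h2 : ∀ x1 x2 : ℝ, tp (q ^ i) c x1 x2 = Rsh q i r p P Om y x1 x2 := by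
    intro x1 x2
    unfold tp Rsh
    rw [← sum_subset (sh_sub q i P)]
    · refine sum_congr rfl fun m hm => ?_
      rw [hc]
      simp only [if_pos hm]
    · intro m _ hm
      rw [hc]
      simp only [if_neg hm, zero_mul]
  have h3 : ∑ m ∈ bx (q ^ i), ‖c m‖ ^ 2 = Fs q i r p P Om y := by
    unfold Fs
    rw [← sum_subset (sh_sub q i P)]
    · refine sum_congr rfl fun m hm => ?_
      rw [hc]
      simp only [if_pos hm]
    · intro m _ hm
      rw [hc]
      simp only [if_neg hm, norm_zero]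
      norm_num
  rw [h3] at h1
  simp only [h2] at h1
  push_cast at h1 ⊢
  exact h1

/-- sup norm as a natural number -/
def nmn (m : ℤ × ℤ) : ℕ := max m.1.natAbs m.2.natAbs

theorem nm_eq (m : ℤ × ℤ) : nm m = (nmn m : ℝ) := by
  unfold nm nmn
  push_cast
  rw [Nat.cast_natAbs, Nat.cast_natAbs]
  push_cast
  rfl

theorem nmn_eq_zero {m : ℤ × ℤ} (h : nmn m = 0) : m = 0 := by
  unfold nmn at h
  have h1 : m.1.natAbs ≤ 0 := h ▸ le_max_left _ _
  have h2 : m.2.natAbs ≤ 0 := h ▸ le_max_right _ _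
  have h3 : m.1 = 0 := by omega
  have h4 : m.2 = 0 := by omega
  exact Prod.ext h3 h4

theorem mem_sh {q i P : ℕ} {m : ℤ × ℤ} (hq : 2 ≤ q) (hi : 1 ≤ i) :
    m ∈ sh q i P ↔ m ∈ (bx P).filter (fun m => m ≠ 0) ∧ Nat.log q (nmn m) + 1 = i := by
  unfold sh
  rw [mem_filter, mem_filter, nm_eq]
  constructor
  · rintro ⟨h1, h2, h3⟩
    have h2' : q ^ (i - 1) ≤ nmn m := by exact_mod_cast h2
    have h3' : nmn m < q ^ i := by exact_mod_cast h3
    have h0 : nmn m ≠ 0 := by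
      intro h
      rw [h] at h2'
      have : 0 < q ^ (i - 1) := by positivity
      omega
    refine ⟨⟨h1, ?_⟩, ?_⟩
    · rintro rfl
      exact h0 rfl
    · have h4 : Nat.log q (nmn m) = i - 1 := by
        rw [Nat.log_eq_iff (Or.inr ⟨by omega, h0⟩)]
        refine ⟨h2', ?_⟩
        rwa [Nat.sub_add_cancel hi]
      omega
  · rintro ⟨⟨h1, h2⟩, h3⟩
    have h0 : nmn m ≠ 0 := fun h => h2 (nmn_eq_zero h)
    have h4 : Nat.log q (nmn m) = i - 1 := by omega
    rw [Nat.log_eq_iff (Or.inr ⟨by omega, h0⟩), Nat.sub_add_cancel hi] at h4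
    refine ⟨h1, ?_, ?_⟩
    · exact_mod_cast h4.1
    · exact_mod_cast h4.2

theorem zero_mem_bx {K : ℕ} (hK : 0 < K) : (0 : ℤ × ℤ) ∈ bx K := by
  refine nm_lt_bx ?_
  unfold nm
  simp
  exact_mod_cast hK

theorem rzd (hR : RSFStmt) : RZDStmt := by
  classical
  intro q t r hq p Om y s1 s2
  have hP : 0 < q ^ t := by positivity
  rw [hR r p (q ^ t) hP Om 0 y s1 s2]
  have h0 := zero_mem_bx hP
  rw [← add_sum_erase _ _ h0]
  have e0 : Rc r p (q ^ t) Om 0 y 0 *
      ex ((((0 : ℤ × ℤ).1 : ℝ) + ((0 : ℤ × ℤ).1 : ℝ) * ((q ^ t : ℕ) : ℝ)) * s1 +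
        (((0 : ℤ × ℤ).2 : ℝ) + ((0 : ℤ × ℤ).2 : ℝ) * ((q ^ t : ℕ) : ℝ)) * s2) =
      omh (q ^ t) Om 0 0 * phi r p 0 0 := by
    unfold Rc
    simp [ex_zero]
  rw [e0]
  congr 1
  have e1 : (bx (q ^ t)).erase 0 = (bx (q ^ t)).filter fun m => m ≠ 0 := by
    ext m
    rw [mem_erase, mem_filter]
    tauto
  rw [e1]
  rw [← sum_fiberwise_of_maps_to (g := fun m : ℤ × ℤ => Nat.log q (nmn m) + 1) (t := Icc 1 t)]
  · refine sum_congr rfl fun i hi => ?_
    have hi1 : 1 ≤ i := (mem_Icc.1 hi).1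
    unfold Rsh
    have e2 : ((bx (q ^ t)).filter fun m => m ≠ 0).filter
        (fun m : ℤ × ℤ => Nat.log q (nmn m) + 1 = i) = sh q i (q ^ t) := by
      ext m
      rw [mem_sh hq hi1, mem_filter (s := (bx (q ^ t)).filter fun m => m ≠ 0)]
    rw [e2]
    refine sum_congr rfl fun m _ => ?_
    simp
  · intro m hm
    rw [mem_filter] at hm
    have h1 := bx_nm_lt hm.1
    rw [nm_eq] at h1
    have h2 : nmn m < q ^ t := by exact_mod_cast h1
    have h3 : nmn m ≠ 0 := fun h => hm.2 (nmn_eq_zero h)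
    rw [mem_Icc]
    have h4 : Nat.log q (nmn m) < t := Nat.log_lt_of_lt_pow h3 h2
    omega

/-- rotation of a sum over `range P` -/
theorem sum_rot {P s : ℕ} (hP : 0 < P) (g : ℕ → ℂ) :
    ∑ z ∈ range P, g ((z + s) % P) = ∑ z ∈ range P, g z := by
  refine sum_nbij (fun z => (z + s) % P) ?_ ?_ ?_ ?_
  · intro z _
    exact mem_coe.2 (mem_range.2 (Nat.mod_lt _ hP))
  · intro a ha b hb hab
    have ha' := mem_range.1 (mem_coe.1 ha)
    have hb' := mem_range.1 (mem_coe.1 hb)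
    have h1 : a + s ≡ b + s [MOD P] := hab
    have h2 : a ≡ b [MOD P] := Nat.ModEq.add_right_cancel' s h1
    exact Nat.ModEq.eq_of_lt_of_lt h2 ha' hb'
  · intro b hb
    have hb' := mem_range.1 (mem_coe.1 hb)
    refine ⟨(b + (P - s % P)) % P, mem_coe.2 (mem_range.2 (Nat.mod_lt _ hP)), ?_⟩
    have hs := Nat.mod_lt s hP
    have hs2 := Nat.div_add_mod s P
    simp only
    rw [Nat.mod_add_mod]
    have h3 : b + (P - s % P) + s = b + P * (s / P + 1) := by
      rw [mul_add]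
      omega
    rw [h3, Nat.add_mul_mod_self_left, Nat.mod_eq_of_lt hb']
  · intro z _
    rfl

/-- the one-dimensional sum vanishes -/
theorem van_one {q t t1 : ℕ} (hq : 2 ≤ q) (ht : t1 ≤ t) (g : ℕ → ℂ)
    (hg : ∀ z < q ^ t, g ((z + q ^ (t - t1)) % q ^ t) = g z) (m : ℤ) (hm0 : m ≠ 0)
    (hm : |(m : ℝ)| < (q : ℝ) ^ t1) :
    ∑ z ∈ range (q ^ t), g z * ex (-((m * z) / ((q ^ t : ℕ) : ℝ))) = 0 := by
  have hP : 0 < q ^ t := by positivity
  have hPr : (0 : ℝ) < ((q ^ t : ℕ) : ℝ) := by exact_mod_cast hP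
  obtain ⟨S, hS⟩ : ∃ S, S = ∑ z ∈ range (q ^ t), g z * ex (-((m * z) / ((q ^ t : ℕ) : ℝ))) :=
    ⟨_, rfl⟩
  rw [← hS]
  have h1 : S = S * ex (-((m * ((q ^ (t - t1) : ℕ) : ℝ)) / ((q ^ t : ℕ) : ℝ))) := by
    have h2 := sum_rot (s := q ^ (t - t1)) hP
      (fun z => g z * ex (-((m * z) / ((q ^ t : ℕ) : ℝ))))
    rw [← hS] at h2
    refine h2.symm.trans ?_
    rw [hS, sum_mul]
    refine sum_congr rfl fun z hz => ?_
    rw [hg z (mem_range.1 hz), mul_assoc, ← ex_add]
    congr 1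
    have h3 := Nat.div_add_mod (z + q ^ (t - t1)) (q ^ t)
    obtain ⟨D, hD⟩ : ∃ D, D = (z + q ^ (t - t1)) / q ^ t := ⟨_, rfl⟩
    obtain ⟨R, hR⟩ : ∃ R, R = (z + q ^ (t - t1)) % q ^ t := ⟨_, rfl⟩
    rw [← hD, ← hR] at h3
    rw [← hR]
    have h4 : (R : ℝ) = (z : ℝ) + ((q ^ (t - t1) : ℕ) : ℝ) - ((q ^ t : ℕ) : ℝ) * (D : ℝ) := by
      have : ((q ^ t * D + R : ℕ) : ℝ) = ((z + q ^ (t - t1) : ℕ) : ℝ) := by rw [h3]
      push_cast at this ⊢
      linarith
    have h5 : -((m * (R : ℝ)) / ((q ^ t : ℕ) : ℝ)) =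
        (-((m * z) / ((q ^ t : ℕ) : ℝ)) +
          -((m * ((q ^ (t - t1) : ℕ) : ℝ)) / ((q ^ t : ℕ) : ℝ))) +
          ((m * (D : ℤ) : ℤ) : ℝ) := by
      rw [h4]
      push_cast
      field_simp
      ring
    rw [h5, ex_add_int]
  have h6 : ex (-((m * ((q ^ (t - t1) : ℕ) : ℝ)) / ((q ^ t : ℕ) : ℝ))) ≠ 1 := by
    have hq0 : (0 : ℝ) < q := by
      have : 0 < q := by omega
      exact_mod_cast this
    have e : -((m * ((q ^ (t - t1) : ℕ) : ℝ)) / ((q ^ t : ℕ) : ℝ)) = -((m : ℝ) / (q : ℝ) ^ t1) := by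
      have h7 : ((q ^ t : ℕ) : ℝ) = (q : ℝ) ^ t1 * (q : ℝ) ^ (t - t1) := by
        push_cast
        rw [← pow_add]
        congr 1
        omega
      rw [h7]
      push_cast
      field_simp
    rw [e]
    have hm0' : (m : ℝ) ≠ 0 := by exact_mod_cast hm0
    refine ex_ne_one (neg_ne_zero.2 (div_ne_zero hm0' (by positivity))) ?_
    rw [abs_neg, abs_div, abs_of_pos (by positivity : (0 : ℝ) < (q : ℝ) ^ t1),
      div_lt_one (by positivity)]
    exact hm
  by_contra hne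
  have h8 : S * 1 = S * ex (-((m * ((q ^ (t - t1) : ℕ) : ℝ)) / ((q ^ t : ℕ) : ℝ))) := by
    rw [mul_one]
    exact h1
  exact h6 (mul_left_cancel₀ hne h8).symm

theorem van : VANStmt := by
  intro q t t1 i r hq ht hi p Om y hOm m hm
  unfold sh at hm
  rw [mem_filter] at hm
  obtain ⟨-, h1, h2⟩ := hm
  have hq1 : (1 : ℝ) ≤ q := by
    have : 1 ≤ q := by omega
    exact_mod_cast this
  have h3 : nm m < (q : ℝ) ^ t1 := h2.trans_le (pow_le_pow_right₀ hq1 hi)
  have h4 : 1 ≤ nm m := (one_le_pow₀ hq1).trans h1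
  have h5 : |(m.1 : ℝ)| < (q : ℝ) ^ t1 := (le_max_left _ _).trans_lt h3
  have h6 : |(m.2 : ℝ)| < (q : ℝ) ^ t1 := (le_max_right _ _).trans_lt h3
  have h7 : m.1 ≠ 0 ∨ m.2 ≠ 0 := by
    by_contra h
    push Not at h
    have h8 : nm m = 0 := by
      unfold nm
      rw [h.1, h.2]
      simp
    linarith
  have h9 : omd (q ^ t) Om m.1 m.2 = 0 := by
    unfold omd
    rw [div_eq_zero_iff]
    left
    rcases h7 with h7 | h7
    · rw [sum_comm]
      refine sum_eq_zero fun z2 hz2 => ?_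
      have h10 := van_one hq ht (fun z1 => (Om z1 z2 : ℂ) *
        ex (-((m.2 * z2) / ((q ^ t : ℕ) : ℝ)))) (fun z hz => by
          rw [(hOm z hz z2 (mem_range.1 hz2)).1]) m.1 h7 h5
      rw [← h10]
      refine sum_congr rfl fun z1 _ => ?_
      rw [mul_assoc, ← ex_add]
      congr 2
      ring
    · refine sum_eq_zero fun z1 hz1 => ?_
      have h10 := van_one hq ht (fun z2 => (Om z1 z2 : ℂ) *
        ex (-((m.1 * z1) / ((q ^ t : ℕ) : ℝ)))) (fun z hz => by
          rw [(hOm z1 (mem_range.1 hz1) z hz).2]) m.2 h7 h6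
      rw [← h10]
      refine sum_congr rfl fun z2 _ => ?_
      rw [mul_assoc, ← ex_add]
      congr 2
      ring
  unfold Rc omh
  rw [h9]
  simp

theorem ex_cont : Continuous ex := by
  unfold ex
  fun_prop

theorem phi_cont (r : ℕ) (p : ℕ → ℕ → ℝ) (a b : ℝ) :
    Continuous fun y : ℝ => phi r p (y * a) (y * b) := by
  unfold phi
  refine continuous_finsetSum _ fun n _ => continuous_finsetSum _ fun a' _ => ?_
  exact continuous_const.mul (ex_cont.comp (by fun_prop))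

theorem fct : FCTStmt := by
  intro r p P Om k q i
  constructor
  · unfold Fk
    refine continuous_finsetSum _ fun m _ => ?_
    unfold Rc
    exact ((continuous_const.mul (phi_cont _ _ _ _)).norm).pow 2
  · unfold Fs
    refine continuous_finsetSum _ fun m _ => ?_
    unfold Rc
    exact ((continuous_const.mul (phi_cont _ _ _ _)).norm).pow 2

/-- the square of `phi` as a quadruple sum -/
theorem phi_sq (r : ℕ) (p : ℕ → ℕ → ℝ) (t1 t2 : ℝ) :
    ((‖phi r p t1 t2‖ ^ 2 : ℝ) : ℂ) =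
      ∑ n ∈ range (2 ^ r), ∑ a ∈ range (2 ^ r), ∑ n' ∈ range (2 ^ r), ∑ a' ∈ range (2 ^ r),
        ((p n a * p n' a' : ℝ) : ℂ) * ex (((n : ℝ) - n') * t1 + ((a : ℝ) - a') * t2) := by
  have h1 : ((‖phi r p t1 t2‖ ^ 2 : ℝ) : ℂ) = phi r p t1 t2 * (starRingEnd ℂ) (phi r p t1 t2) := by
    rw [Complex.mul_conj, Complex.normSq_eq_norm_sq]
  rw [h1]
  unfold phi
  rw [sum_mul]
  refine sum_congr rfl fun n _ => ?_
  rw [sum_mul]
  refine sum_congr rfl fun a _ => ?_
  rw [map_sum, mul_sum]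
  refine sum_congr rfl fun n' _ => ?_
  rw [map_sum, mul_sum]
  refine sum_congr rfl fun a' _ => ?_
  rw [map_mul, ← ex_neg, Complex.conj_ofReal]
  have h2 : ex (((n : ℝ) - n') * t1 + ((a : ℝ) - a') * t2) =
      ex (n * t1 + a * t2) * ex (-(n' * t1 + a' * t2)) := by
    rw [← ex_add]
    congr 1
    ring
  rw [h2]
  push_cast
  ring

theorem int_ex (N : ℤ) : ∫ y in (0 : ℝ)..1, ex (y * N) = if N = 0 then 1 else 0 := by
  split_ifs with h
  · rw [h]
    simp [ex_zero]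
  · have hN : (2 * Real.pi * Complex.I * N : ℂ) ≠ 0 := by
      have h1 : (Real.pi : ℂ) ≠ 0 := by exact_mod_cast Real.pi_ne_zero
      have h2 : (N : ℂ) ≠ 0 := by exact_mod_cast h
      exact mul_ne_zero (mul_ne_zero (mul_ne_zero two_ne_zero h1) Complex.I_ne_zero) h2
    have h3 := integral_exp_mul_complex (a := 0) (b := 1) hN
    have h4 : ∀ y : ℝ, ex (y * N) = Complex.exp (2 * Real.pi * Complex.I * N * y) := by
      intro y
      unfold ex
      congr 1
      push_cast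
      ring
    simp only [h4]
    rw [h3]
    have h5 : Complex.exp (2 * Real.pi * Complex.I * N * ((1 : ℝ) : ℂ)) = 1 := by
      rw [← h4, one_mul, ex_int]
    rw [h5]
    simp

theorem din : DINStmt := by
  intro r p K
  have hc : Continuous (Dk r p K) := by
    unfold Dk
    refine continuous_finsetSum _ fun k _ => ?_
    exact ((phi_cont _ _ _ _).norm).pow 2
  refine ⟨hc, ?_⟩
  unfold Dk
  rw [intervalIntegral.integral_finsetSum]
  · refine sum_congr rfl fun k _ => ?_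
    have h1 : ((∫ y in (0 : ℝ)..1, ‖phi r p (y * k.1) (y * k.2)‖ ^ 2 : ℝ) : ℂ) =
        ∫ y in (0 : ℝ)..1, ((‖phi r p (y * k.1) (y * k.2)‖ ^ 2 : ℝ) : ℂ) :=
      (intervalIntegral.integral_ofReal).symm
    have h2 : ((∫ y in (0 : ℝ)..1, ‖phi r p (y * k.1) (y * k.2)‖ ^ 2 : ℝ) : ℂ) =
        ((∑ n ∈ range (2 ^ r), ∑ a ∈ range (2 ^ r), ∑ n' ∈ range (2 ^ r),
          ∑ a' ∈ range (2 ^ r), (if k.1 * ((n : ℤ) - n') + k.2 * ((a : ℤ) - a') = 0 then
            p n a * p n' a' else 0) : ℝ) : ℂ) := by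
      rw [h1]
      simp only [phi_sq]
      have hci : ∀ (n a n' a' : ℕ), Continuous fun y : ℝ => ((p n a * p n' a' : ℝ) : ℂ) *
          ex (((n : ℝ) - n') * (y * k.1) + ((a : ℝ) - a') * (y * k.2)) :=
        fun n a n' a' => continuous_const.mul (ex_cont.comp (by fun_prop))
      rw [intervalIntegral.integral_finsetSum]
      swap
      · intro n _
        exact (continuous_finsetSum _ fun a _ => continuous_finsetSum _ fun n' _ =>
          continuous_finsetSum _ fun a' _ => hci n a n' a').intervalIntegrable _ _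
      rw [Complex.ofReal_sum]
      refine sum_congr rfl fun n _ => ?_
      rw [intervalIntegral.integral_finsetSum]
      swap
      · intro a _
        exact (continuous_finsetSum _ fun n' _ =>
          continuous_finsetSum _ fun a' _ => hci n a n' a').intervalIntegrable _ _
      rw [Complex.ofReal_sum]
      refine sum_congr rfl fun a _ => ?_
      rw [intervalIntegral.integral_finsetSum]
      swap
      · intro n' _
        exact (continuous_finsetSum _ fun a' _ => hci n a n' a').intervalIntegrable _ _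
      rw [Complex.ofReal_sum]
      refine sum_congr rfl fun n' _ => ?_
      rw [intervalIntegral.integral_finsetSum]
      swap
      · intro a' _
        exact (hci n a n' a').intervalIntegrable _ _
      rw [Complex.ofReal_sum]
      refine sum_congr rfl fun a' _ => ?_
      rw [intervalIntegral.integral_const_mul]
      have h3 : ∀ y : ℝ, ex (((n : ℝ) - n') * (y * k.1) + ((a : ℝ) - a') * (y * k.2)) =
          ex (y * ((k.1 * ((n : ℤ) - n') + k.2 * ((a : ℤ) - a') : ℤ) : ℝ)) := by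
        intro y
        congr 1
        push_cast
        ring
      simp only [h3]
      rw [int_ex]
      split_ifs <;> simp
    exact_mod_cast h2
  · intro k _
    exact (((phi_cont _ _ _ _).norm).pow 2).intervalIntegrable _ _

end Pool.FD
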